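import Pool.Agent.Lib.MP_2ecc60_nt_h23.Gap

namespace Pool.Agent.Results.MP_2ecc60_nt.GapPrinciple

/-- Let `lam ≠ 0` be real, `1 ≤ d < c` with `d` an integer, `θ ≥ 0` and
`(c + 1) / ((d + 1) (c - d + 1)) < 1 - θ`. Then any two large enough integers `m < n` with
`‖lam e^m‖ < exp (-c m)` and `‖lam e^n‖ < exp (-c n)` satisfy `n > m + m^θ`. -/
theorem result (lam : ℝ) (hlam : lam ≠ 0) (d : ℕ) (c θ : ℝ) (hd : 1 ≤ d) (hdc : (d : ℝ) < c)
    (hθ : 0 ≤ θ) (h : (c + 1) / (((d : ℝ) + 1) * (c - d + 1)) < 1 - θ) :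
    ∃ n₀ : ℕ, ∀ m n : ℕ, n₀ ≤ m → m < n →
      |lam * Real.exp m - round (lam * Real.exp m)| < Real.exp (-(c * m)) →
      |lam * Real.exp n - round (lam * Real.exp n)| < Real.exp (-(c * n)) →
      (m : ℝ) + (m : ℝ) ^ θ < n := by
  have hd1 : (1 : ℝ) ≤ d := by exact_mod_cast hd
  have hc0 : 0 < c := by linarith
  have hpos : 0 < ((d : ℝ) + 1) * (c - d + 1) := by
    have : 0 < c - d + 1 := by linarith
    positivity
  have hθ1 : θ < 1 := by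
    have : 0 ≤ (c + 1) / (((d : ℝ) + 1) * (c - d + 1)) := by positivity
    linarith
  rw [div_lt_iff₀ hpos] at h
  obtain ⟨n₀, h'⟩ := H23E.gap2S lam hlam d hd c θ hθ hθ1 hc0 (by linarith)
  exact ⟨n₀, fun m n hm hmn h1 h2 => h' m hm n hmn h1 h2⟩

end Pool.Agent.Results.MP_2ecc60_nt.GapPrinciple
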