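import Pool.Agent.Lib.MP_2ecc60_nt_h23.UnifCount

namespace Pool.Agent.Results.MP_2ecc60_nt.UniformRarity

/-- For every real `lam ≠ 0` (in particular `lam = 1`) there is a constant `C` such that for all
real `0 < c ≤ 1` and all integers `N ≥ 1` at most `(C / c) N^(1 - c/16)` integers `0 ≤ n ≤ N` have
`‖lam e^n‖ < exp (-c n)`. -/
theorem result (lam : ℝ) (hlam : lam ≠ 0) :
    ∃ C : ℝ, ∀ c : ℝ, 0 < c → c ≤ 1 → ∀ N : ℕ, 1 ≤ N →
      (({n : ℕ | n ≤ N ∧ |lam * Real.exp n - round (lam * Real.exp n)| <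
        Real.exp (-(c * n))}.ncard : ℕ) : ℝ) ≤ C / c * (N : ℝ) ^ (1 - c / 16) := by
  classical
  obtain ⟨C, h⟩ := H23E.count_unif3 lam hlam
  refine ⟨C, fun c hc0 hc1 N hN => ?_⟩
  have key : {n : ℕ | n ≤ N ∧ |lam * Real.exp n - round (lam * Real.exp n)| <
        Real.exp (-(c * n))}.ncard = ((Finset.range (N+1)).filter (fun n : ℕ =>
        |lam * Real.exp n - round (lam * Real.exp n)| < Real.exp (-(c * n)))).card := by
    rw [← Set.ncard_coe_finset]
    congr 1
    ext n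
    simp [Nat.lt_succ_iff]
  rw [key]
  convert h c hc0 hc1 N hN

end Pool.Agent.Results.MP_2ecc60_nt.UniformRarity
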