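import Pool.Agent.Lib.MP_2ecc60_nt_h23.Win

namespace Pool.Agent.Results.MP_2ecc60_nt.WindowBound

/-- Let `lam ≠ 0` be real, `c > 0`, `d` an integer with `c d > 1`, and
`0 ≤ θ < (c d - 1) / ((d + 1) (c d + d - 1))`. Then for all large `n` at most `d` integers `k` in
`[n, n + n^θ]` have `‖lam e^k‖ < exp (-c k)`. -/
theorem result (lam : ℝ) (hlam : lam ≠ 0) (d : ℕ) (c θ : ℝ) (hc : 0 < c) (hcd : 1 < c * d)
    (hθ : 0 ≤ θ) (h : θ < (c * d - 1) / (((d : ℝ) + 1) * (c * d + d - 1))) :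
    ∃ n₀ : ℕ, ∀ n ≥ n₀,
      {k : ℕ | |lam * Real.exp k - round (lam * Real.exp k)| < Real.exp (-(c * k)) ∧
        n ≤ k ∧ (k : ℝ) ≤ n + (n : ℝ) ^ θ}.ncard ≤ d := by
  have hd : 1 ≤ d := by
    rcases Nat.eq_zero_or_pos d with h0 | h0
    · subst h0; simp at hcd; linarith
    · exact h0
  have hd1 : (1 : ℝ) ≤ d := by exact_mod_cast hd
  have hpos : 0 < ((d : ℝ) + 1) * (c * d + d - 1) := by
    have : 0 < c * d + d - 1 := by linarith
    positivity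
  rw [lt_div_iff₀ hpos] at h
  obtain ⟨n₀, h'⟩ := H23E.window2S lam hlam d hd c θ hθ hc (by linarith)
  refine ⟨n₀, fun n hn => ?_⟩
  have hfin : {k : ℕ | |lam * Real.exp k - round (lam * Real.exp k)| < Real.exp (-(c * k)) ∧
      n ≤ k ∧ (k : ℝ) ≤ n + (n : ℝ) ^ θ}.Finite := by
    apply (Set.finite_Iic ⌊(n : ℝ) + (n : ℝ) ^ θ⌋₊).subset
    intro k hk
    exact Nat.le_floor hk.2.2
  rw [Set.ncard_eq_toFinset_card _ hfin]
  apply h' n hn
  intro k hk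
  exact hfin.mem_toFinset.mp hk

end Pool.Agent.Results.MP_2ecc60_nt.WindowBound
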